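import Pool.Agent.MP_d0b2d2_an.Gen.RS

open MeasureTheory Set Filter Topology Pool.Agent.MP_d0b2d2_an.Gen

namespace Pool.Agent.Results.MP_d0b2d2_an.Full

/-- Every translation surface is weakly illuminated by circles. -/
theorem result (X : Type) [TopologicalSpace X] [CompactSpace X] [T2Space X] [ConnectedSpace X]
    [ChartedSpace ℂ X] [IsManifold (modelWithCornersSelf ℂ ℂ) 1 X] [MeasurableSpace X]
    [BorelSpace X] (ω : HolForm X) (hω : ∃ x, ω.coeff x (chartAt ℂ x x) ≠ 0) (p : X) :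
    (∃ lam : Measure X, ω.IsArea lam) ∧ (∃ γ : ℝ → ℝ → X, ω.IsRayFamily p γ) ∧
    ∀ lam : Measure X, ω.IsArea lam → (0 < lam univ ∧ lam univ < ⊤) ∧
      ∀ γ : ℝ → ℝ → X, ω.IsRayFamily p γ → ∃ G : Set ℝ, MeasurableSet G ∧
        Tendsto (fun N : ℝ => (volume (G ∩ Icc (-N) N)).toReal / (2 * N)) atTop (𝓝 1) ∧
        ∀ h : C(X, ℝ), Tendsto (fun t : ℝ => ∫ θ in (0 : ℝ)..1, h (γ θ t)) (atTop ⊓ 𝓟 G)
          (𝓝 ((∫ q, h q ∂lam) / (lam univ).toReal)) :=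
  main_form X ω hω p

end Pool.Agent.Results.MP_d0b2d2_an.Full
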