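import Pool.Agent.MP_d0b2d2_an.DjAll

open MeasureTheory Set Filter Topology Pool.Agent.MP_d0b2d2_an.Gen

namespace Pool.Agent.Results.MP_d0b2d2_an.ProductEquidistribution

/-- On any two translation surfaces, for almost every pair of directions, every pair of infinite
trajectories equidistributes in the product with respect to the product of the areas. -/
theorem result (X : Type) [TopologicalSpace X] [CompactSpace X] [T2Space X] [ConnectedSpace X]
    [ChartedSpace ℂ X] [IsManifold (modelWithCornersSelf ℂ ℂ) 1 X] [MeasurableSpace X]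
    [BorelSpace X] (ω : HolForm X) (hω : ∃ x, ω.coeff x (chartAt ℂ x x) ≠ 0)
    (Y : Type) [TopologicalSpace Y] [CompactSpace Y] [T2Space Y] [ConnectedSpace Y]
    [ChartedSpace ℂ Y] [IsManifold (modelWithCornersSelf ℂ ℂ) 1 Y] [MeasurableSpace Y]
    [BorelSpace Y] (η : HolForm Y) (hη : ∃ y, η.coeff y (chartAt ℂ y y) ≠ 0) :
    (∃ lam : Measure X, ω.IsArea lam) ∧ (∃ mu : Measure Y, η.IsArea mu) ∧
    ∀ (lam : Measure X) (mu : Measure Y), ω.IsArea lam → η.IsArea mu →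
      ((0 < lam univ ∧ lam univ < ⊤) ∧ (0 < mu univ ∧ mu univ < ⊤)) ∧
      ∀ᵐ z ∂(volume.restrict (Ioo (0 : ℝ) 1 ×ˢ Ioo (0 : ℝ) 1)),
        (∃ p γ, ω.IsRay p (Complex.exp (((2 * Real.pi * z.1 : ℝ) : ℂ) * Complex.I)) γ) ∧
        (∃ q γ', η.IsRay q (Complex.exp (((2 * Real.pi * z.2 : ℝ) : ℂ) * Complex.I)) γ') ∧
        ∀ (p : X) (q : Y) (γ : ℝ → X) (γ' : ℝ → Y),
          ω.IsRay p (Complex.exp (((2 * Real.pi * z.1 : ℝ) : ℂ) * Complex.I)) γ →
          η.IsRay q (Complex.exp (((2 * Real.pi * z.2 : ℝ) : ℂ) * Complex.I)) γ' →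
          ∀ H : C(X × Y, ℝ), Tendsto (fun T : ℝ => (∫ t in (0 : ℝ)..T, H (γ t, γ' t)) / T) atTop
            (𝓝 ((∫ x, ∫ y, H (x, y) ∂mu ∂lam) / ((lam univ).toReal * (mu univ).toReal))) :=
  dj_form s_djMeas s_djSect s_djTens s_djTime X ω hω Y η hη

end Pool.Agent.Results.MP_d0b2d2_an.ProductEquidistribution
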